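import Pool.Agent.Helper99.SI.StD

set_option autoImplicit false

/-!
# Project SI, module D1: band operators on square summable functions
-/

namespace Pool.Agent.Helper29.SI

open Pool.Agent.Helper99.SI

section

variable {ι ι' : Type} (a : ι → (ι' →₀ ℂ)) (S : ι' → Finset ι)

/-- The sum over the row. -/
noncomputable def rowSum (z : ι → ℂ) (k : ι') : ℂ := ∑ i ∈ S k, a i k * z i

theorem rowSum_bound (K : ℕ) (C : ℝ)
    (hcol : ∀ i, (a i).support.card ≤ K) (hS : ∀ k i, i ∈ S k ↔ a i k ≠ 0)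
    (hSK : ∀ k, (S k).card ≤ K) (ha : ∀ i k, ‖a i k‖ ≤ C) (z : ι → ℂ) (N : ℝ)
    (hz : ∀ U : Finset ι, ∑ i ∈ U, ‖z i‖ ^ 2 ≤ N ^ 2) (F : Finset ι') :
    ∑ k ∈ F, ‖rowSum a S z k‖ ^ 2 ≤ (K * C * N) ^ 2 := by
  classical
  have h1 : ∀ k ∈ F, ‖rowSum a S z k‖ ^ 2 ≤ K * C ^ 2 * ∑ i ∈ S k, ‖z i‖ ^ 2 := by
    intro k _
    have h2 : ‖rowSum a S z k‖ ≤ ∑ i ∈ S k, C * ‖z i‖ := by
      refine (norm_sum_le _ _).trans (Finset.sum_le_sum fun i _ => ?_)
      rw [norm_mul]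
      exact mul_le_mul_of_nonneg_right (ha i k) (norm_nonneg _)
    have h3 : ‖rowSum a S z k‖ ^ 2 ≤ (∑ i ∈ S k, C * ‖z i‖) ^ 2 :=
      pow_le_pow_left₀ (norm_nonneg _) h2 2
    have h4 : (∑ i ∈ S k, C * ‖z i‖) ^ 2 ≤ (S k).card * ∑ i ∈ S k, (C * ‖z i‖) ^ 2 :=
      sq_sum_le_card_mul_sum_sq
    have h5 : ∑ i ∈ S k, (C * ‖z i‖) ^ 2 = C ^ 2 * ∑ i ∈ S k, ‖z i‖ ^ 2 := by
      rw [Finset.mul_sum]
      exact Finset.sum_congr rfl fun i _ => by ring
    have h6 : ((S k).card : ℝ) ≤ K := by exact_mod_cast hSK k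
    have h7 : 0 ≤ C ^ 2 * ∑ i ∈ S k, ‖z i‖ ^ 2 :=
      mul_nonneg (sq_nonneg _) (Finset.sum_nonneg fun i _ => sq_nonneg _)
    calc ‖rowSum a S z k‖ ^ 2 ≤ (S k).card * (C ^ 2 * ∑ i ∈ S k, ‖z i‖ ^ 2) := by
          rw [← h5]; exact h3.trans h4
      _ ≤ K * (C ^ 2 * ∑ i ∈ S k, ‖z i‖ ^ 2) := mul_le_mul_of_nonneg_right h6 h7
      _ = K * C ^ 2 * ∑ i ∈ S k, ‖z i‖ ^ 2 := by ring
  have h8 : ∑ k ∈ F, ∑ i ∈ S k, ‖z i‖ ^ 2 ≤ K * N ^ 2 := by
    have h9 : ∑ k ∈ F, ∑ i ∈ S k, ‖z i‖ ^ 2 =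
        ∑ i ∈ F.biUnion S, ∑ k ∈ F.filter (fun k => a i k ≠ 0), ‖z i‖ ^ 2 := by
      refine Finset.sum_comm' ?_
      intro k i
      rw [Finset.mem_filter, Finset.mem_biUnion, hS]
      constructor
      · rintro ⟨hk, hi⟩
        exact ⟨⟨hk, hi⟩, k, hk, (hS k i).2 hi⟩
      · rintro ⟨⟨hk, hi⟩, -⟩
        exact ⟨hk, hi⟩
    rw [h9]
    calc ∑ i ∈ F.biUnion S, ∑ k ∈ F.filter (fun k => a i k ≠ 0), ‖z i‖ ^ 2
        ≤ ∑ i ∈ F.biUnion S, (K : ℝ) * ‖z i‖ ^ 2 := by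
          refine Finset.sum_le_sum fun i _ => ?_
          rw [Finset.sum_const, nsmul_eq_mul]
          refine mul_le_mul_of_nonneg_right ?_ (sq_nonneg _)
          have h10 : F.filter (fun k => a i k ≠ 0) ⊆ (a i).support := by
            intro k hk
            rw [Finset.mem_filter] at hk
            exact Finsupp.mem_support_iff.2 hk.2
          exact_mod_cast (Finset.card_le_card h10).trans (hcol i)
      _ = K * ∑ i ∈ F.biUnion S, ‖z i‖ ^ 2 := by rw [Finset.mul_sum]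
      _ ≤ K * N ^ 2 := mul_le_mul_of_nonneg_left (hz _) (Nat.cast_nonneg _)
  calc ∑ k ∈ F, ‖rowSum a S z k‖ ^ 2 ≤ ∑ k ∈ F, K * C ^ 2 * ∑ i ∈ S k, ‖z i‖ ^ 2 :=
        Finset.sum_le_sum h1
    _ = K * C ^ 2 * ∑ k ∈ F, ∑ i ∈ S k, ‖z i‖ ^ 2 := by rw [Finset.mul_sum]
    _ ≤ K * C ^ 2 * (K * N ^ 2) :=
        mul_le_mul_of_nonneg_left h8 (mul_nonneg (Nat.cast_nonneg _) (sq_nonneg _))
    _ = (K * C * N) ^ 2 := by ring

end

theorem hD1 : StD1 := by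
  classical
  intro ι ι' a K C hC hcol hrow ha
  let S : ι' → Finset ι := fun k => (hrow k).1.toFinset
  have hS : ∀ k i, i ∈ S k ↔ a i k ≠ 0 := by
    intro k i
    simp [S]
  have hSK : ∀ k, (S k).card ≤ K := by
    intro k
    have h := (hrow k).2
    rwa [Set.ncard_eq_toFinset_card _ (hrow k).1] at h
  have hp : 0 < (2 : ENNReal).toReal := by norm_num
  have hz : ∀ (z : L2 ι) (U : Finset ι), ∑ i ∈ U, ‖z i‖ ^ 2 ≤ ‖z‖ ^ 2 := by
    intro z U
    have h := lp.sum_rpow_le_norm_rpow hp z U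
    simpa using h
  have hb : ∀ (z : L2 ι) (F : Finset ι'), ∑ k ∈ F, ‖rowSum a S z k‖ ^ 2 ≤ (K * C * ‖z‖) ^ 2 :=
    fun z F => rowSum_bound a S K C hcol hS hSK ha z ‖z‖ (hz z) F
  have hmem : ∀ z : L2 ι, Memℓp (rowSum a S z) 2 := by
    intro z
    refine memℓp_gen' (C := (K * C * ‖z‖) ^ 2) ?_
    intro F
    have h := hb z F
    simpa using h
  let T0 : L2 ι →ₗ[ℂ] L2 ι' :=
    { toFun := fun z => ⟨rowSum a S z, hmem z⟩
      map_add' := by
        intro y z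
        ext k
        change rowSum a S (fun i => y i + z i) k = rowSum a S y k + rowSum a S z k
        simp only [rowSum, mul_add, Finset.sum_add_distrib]
      map_smul' := by
        intro c z
        ext k
        change rowSum a S (fun i => c * z i) k = c * rowSum a S z k
        simp only [rowSum, Finset.mul_sum]
        exact Finset.sum_congr rfl fun i _ => by ring }
  have hT0 : ∀ z : L2 ι, ‖T0 z‖ ≤ K * C * ‖z‖ := by
    intro z
    refine lp.norm_le_of_forall_sum_le hp (by positivity) ?_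
    intro F
    have h := hb z F
    have h2 : ∀ k, (T0 z) k = rowSum a S z k := fun k => rfl
    simpa [h2] using h
  refine ⟨T0.mkContinuous (K * C) hT0, ?_, T0.mkContinuous_norm_le (by positivity) hT0⟩
  intro z k
  change rowSum a S z k = _
  rw [rowSum, finsum_eq_sum_of_support_subset]
  intro i hi
  rw [Function.mem_support] at hi
  rw [Finset.mem_coe, hS]
  intro h0
  exact hi (by rw [h0, zero_mul])

end Pool.Agent.Helper29.SI
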