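import Pool.Agent.Helper80.SI.StN

set_option autoImplicit false

/-!
# Project SI, module N1: compactness
-/

namespace Pool.Agent.Helper29.SI

open Pool.Agent.Helper99.SI Pool.Agent.Helper80.SI Filter Topology

theorem hN1 : StN1 := by
  intro I _ zz a B hs hB ha
  have hb : ∀ k i, ‖zz k i‖ ≤ Real.sqrt B := by
    intro k i
    have h1 : ‖zz k i‖ ^ 2 ≤ B :=
      ((hs k).le_tsum i (fun j _ => by positivity)).trans (hB k)
    exact Real.le_sqrt_of_sq_le h1
  have hK : IsCompact ((Set.univ.pi fun _ : I => Metric.closedBall (0 : ℂ) (Real.sqrt B)) ×ˢ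
      Set.Icc (0 : ℝ) 1) :=
    (isCompact_univ_pi fun _ => isCompact_closedBall _ _).prod isCompact_Icc
  have hmem : ∀ k, ((zz k, a k) : (I → ℂ) × ℝ) ∈
      (Set.univ.pi fun _ : I => Metric.closedBall (0 : ℂ) (Real.sqrt B)) ×ˢ Set.Icc (0 : ℝ) 1 := by
    intro k
    refine ⟨?_, ha k⟩
    intro i _
    rw [mem_closedBall_zero_iff]
    exact hb k i
  obtain ⟨⟨z, σ⟩, -, φ, hφ, hl⟩ := hK.tendsto_subseq hmem
  have hz : ∀ i, Tendsto (fun k => zz (φ k) i) atTop (𝓝 (z i)) := by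
    intro i
    have h1 : Tendsto (fun k => zz (φ k)) atTop (𝓝 z) := (continuous_fst.tendsto _).comp hl
    exact (tendsto_pi_nhds.1 h1) i
  have hσ : Tendsto (fun k => a (φ k)) atTop (𝓝 σ) := (continuous_snd.tendsto _).comp hl
  refine ⟨φ, z, σ, hφ, hz, hσ, ?_⟩
  refine summable_of_sum_le (c := B) (fun i => by positivity) ?_
  intro T
  have h1 : Tendsto (fun k => ∑ i ∈ T, ‖zz (φ k) i‖ ^ 2) atTop (𝓝 (∑ i ∈ T, ‖z i‖ ^ 2)) :=
    tendsto_finsetSum _ fun i _ => ((hz i).norm.pow 2)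
  refine le_of_tendsto h1 (Eventually.of_forall fun k => ?_)
  exact ((hs (φ k)).sum_le_tsum T (fun i _ => by positivity)).trans (hB (φ k))

end Pool.Agent.Helper29.SI
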